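import Pool.Agent.Lib.H58D.W3

/-! `MP_dafae9_al`: statement (W) for every `n`: every consistent subsystem of `E_n` has a solution with all coordinates of modulus at most
`2 ^ (2 ^ (n - 2))`. -/

namespace Pool.Agent.Results.MP_dafae9_al.BoundedSolution

open H58D

/-- For every `n ≥ 1`, every `T ⊆ E_n` which is consistent over `ℂ` has a complex solution with all
`|x_i| ≤ 2 ^ (2 ^ (n - 2))`. -/
theorem result :
    ∀ (n : ℕ), 1 ≤ n → ∀ T : Set (Eqn n), T ⊆ EE n → (Sol T).Nonempty →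
      ∃ x ∈ Sol T, ∀ i, ‖x i‖ ≤ (2 : ℝ) ^ ((2 : ℝ) ^ ((n : ℝ) - 2)) :=
  fun n hn T _ hT => FB n hn T hT

end Pool.Agent.Results.MP_dafae9_al.BoundedSolution
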