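import Pool.Agent.Lib.H58D.FQ

/-! `MP_dafae9_al`: statement (ii) for every `n`, with the exact constant, and its consequence for maximal systems:
the bound of Q1 holds for a maximal system if and only if the system has finitely many solutions. -/

namespace Pool.Agent.Results.MP_dafae9_al.FiniteSystems

open H58D

/-- Let `n ≥ 1` and `S ⊆ E_n`.  If `S` contains an equation `x_i = 1` and has finitely many complex solutions, then
every solution has all coordinates of modulus at most `2 ^ (2 ^ (n - 2))`.  If `S` is maximal, then all solutions of `S` satisfy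
this bound if and only if `S` has finitely many solutions. -/
theorem result :
    ∀ (n : ℕ), 1 ≤ n → ∀ S : Set (Eqn n), S ⊆ EE n →
      ((∃ i, Eqn.one i ∈ S) → (Sol S).Finite →
        ∀ x ∈ Sol S, ∀ i, ‖x i‖ ≤ (2 : ℝ) ^ ((2 : ℝ) ^ ((n : ℝ) - 2))) ∧
      (MaxSys n S →
        ((∀ x ∈ Sol S, ∀ i, ‖x i‖ ≤ (2 : ℝ) ^ ((2 : ℝ) ^ ((n : ℝ) - 2))) ↔ (Sol S).Finite)) := by
  intro n _ S _
  refine ⟨?_, fun hS => FQ n S hS⟩
  rintro ⟨i0, hi0⟩ hfin x hx i
  exact FA n S i0 hi0 hfin x hx i

end Pool.Agent.Results.MP_dafae9_al.FiniteSystems
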