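import Pool.Agent.Lib.H41CE.D

/-!
# Solutions of a maximal system with bounded denominators (MP_dafae9_al)

Q1 is equivalent to the finiteness of the solution set `V` of every maximal system `S ⊆ E_n` (hand-in
`FiniteSystems`). Here: for every positive integer `D` there is a finite set `F` such that for every solution `x` for
which all `D x_j` are algebraic integers every coordinate is in `F` or has degree at least 6. So `V` contains only
finitely many points whose coordinates are algebraic numbers of degree at most 5 and become integral after multiplication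
by `D`, where the number field may vary.

Proof: if `S` contains no equation `x_i = 1` then `0` satisfies `S` and all sums and products, so `V = {0}`.
Otherwise let `x_u = 1` be in `S`. By maximality each of the equations `x_i + x_i = x_i`, `x_i = 1`, `x_u + x_u = x_i`,
`x_i + x_i = x_u`, `x_i x_i = x_u` holds on all of `V` or nowhere on `V`. In the first case `x_i` takes at most two
values; otherwise it omits `0, 1, -1, 2, 1/2` on `V`, and by the Nullstellensatz there is `N` such that
`N / (x_i - c)`, `c = 0, 1, -1, 2`, and `N / (2 x_i - 1)` are integral at all points of `V` for which all `D x_j` are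
integral. So the minimal polynomial `h` of the algebraic integer `D x_i`, `d` its degree, satisfies
`|h(D c)| ≤ (D N) ^ d` for the five values `c`, and if `d ≤ 5` there are finitely many such monic integer polynomials, as
five values determine `h` if `d ≤ 5` is given.
-/

set_option autoImplicit false

namespace Pool.Agent.Results.MP_dafae9_al.IntegralSolutions

open H58D Pool.Agent.Lib.H41CE

/-- The maximal systems: `S ⊆ E_n` has a solution and no `S'` with `S ⊂ S' ⊆ E_n` has one. -/
def MaxSys (n : ℕ) (S : Set (Eqn n)) : Prop :=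
  S ⊆ EE n ∧ (Sol S).Nonempty ∧ ∀ S' : Set (Eqn n), S ⊂ S' → S' ⊆ EE n → ¬ (Sol S').Nonempty

theorem holds_mem {n : ℕ} {S : Set (Eqn n)} (hS : MaxSys n S) {x : Fin n → ℂ} (hx : x ∈ Sol S)
    {e : Eqn n} (he : e ∈ EE n) (hxe : Holds x e) : e ∈ S := by
  by_contra hne
  refine hS.2.2 (insert e S) (Set.ssubset_insert hne) (Set.insert_subset he hS.1) ⟨x, ?_⟩
  intro e' he'
  rcases Set.mem_insert_iff.1 he' with rfl | h
  · exact hxe
  · exact hx e' h

theorem coordinate {n : ℕ} {S : Set (Eqn n)} (hS : MaxSys n S) (D : ℕ) (hD : 0 < D) (i : Fin n) :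
    ∃ F : Set ℂ, F.Finite ∧ ∀ x ∈ Sol S, (∀ j, IsIntegral ℤ ((D : ℂ) * x j)) →
      (minpoly ℤ ((D : ℂ) * x i)).natDegree ≤ 5 → x i ∈ F := by
  by_cases h0 : Eqn.add i i i ∈ S
  · refine ⟨{0}, Set.finite_singleton 0, fun x hx _ _ => ?_⟩
    have h : x i + x i = x i := hx _ h0
    rw [Set.mem_singleton_iff]
    linear_combination h
  have hone : ∃ i0, Eqn.one i0 ∈ S := by
    by_contra hno
    push Not at hno
    apply h0
    have hz : (0 : Fin n → ℂ) ∈ Sol S := by
      intro e he
      match e, he with
      | Eqn.one k, he => exact absurd he (hno k)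
      | Eqn.add a b c, _ => simp [Holds]
      | Eqn.mul a b c, _ => simp [Holds]
    exact holds_mem hS hz (e := Eqn.add i i i) (le_refl i) (by simp [Holds])
  obtain ⟨i0, hi0⟩ := hone
  have hv : ∀ x ∈ Sol S, x i0 = 1 := fun x hx => hx _ hi0
  by_cases h1 : Eqn.one i ∈ S
  · refine ⟨{1}, Set.finite_singleton 1, fun x hx _ _ => ?_⟩
    exact hx _ h1
  by_cases h2 : Eqn.add i0 i0 i ∈ S
  · refine ⟨{2}, Set.finite_singleton 2, fun x hx _ _ => ?_⟩
    have h : x i0 + x i0 = x i := hx _ h2
    rw [hv x hx] at h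
    rw [Set.mem_singleton_iff, ← h]
    norm_num
  by_cases h3 : Eqn.add i i i0 ∈ S
  · refine ⟨{1 / 2}, Set.finite_singleton _, fun x hx _ _ => ?_⟩
    have h : x i + x i = x i0 := hx _ h3
    rw [hv x hx] at h
    rw [Set.mem_singleton_iff]
    linear_combination h / 2
  by_cases h4 : Eqn.mul i i i0 ∈ S
  · refine ⟨{1, -1}, (Set.finite_singleton (-1 : ℂ)).insert 1, fun x hx _ _ => ?_⟩
    have h : x i * x i = x i0 := hx _ h4
    rw [hv x hx] at h
    rw [Set.mem_insert_iff, Set.mem_singleton_iff]
    have h5 : (x i - 1) * (x i + 1) = 0 := by linear_combination h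
    rcases mul_eq_zero.1 h5 with h6 | h6
    · exact Or.inl (sub_eq_zero.1 h6)
    · exact Or.inr (eq_neg_of_add_eq_zero_left h6)
  refine coordD S i D hD (fun x hx e => h0 ?_) (fun x hx e => h1 ?_) (fun x hx e => h4 ?_) (fun x hx e => h2 ?_)
    (fun x hx e => h3 ?_)
  · exact holds_mem hS hx (le_refl i) (by simp [Holds, e])
  · exact holds_mem hS hx trivial e
  · refine holds_mem hS hx (le_refl i) ?_
    show x i * x i = x i0
    rw [e, hv x hx]
    ring
  · refine holds_mem hS hx (le_refl i0) ?_
    show x i0 + x i0 = x i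
    rw [hv x hx, e]
    norm_num
  · refine holds_mem hS hx (le_refl i) ?_
    show x i + x i = x i0
    rw [hv x hx, ← e]
    ring

open IntermediateField in
/-- The degree does not change on multiplication by `D`. -/
theorem degree_mul (D : ℕ) (hD : 0 < D) {x : ℂ} (hx : IsIntegral ℤ ((D : ℂ) * x)) :
    (minpoly ℤ ((D : ℂ) * x)).natDegree = (minpoly ℚ x).natDegree := by
  have hDC : (D : ℂ) ≠ 0 := by exact_mod_cast hD.ne'
  have hDm : ∀ K : IntermediateField ℚ ℂ, (D : ℂ) ∈ K := fun K => by
    have := K.algebraMap_mem (D : ℚ)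
    simpa using this
  have hxy : x = (D : ℂ)⁻¹ * ((D : ℂ) * x) := by field_simp
  have hyQ : IsIntegral ℚ ((D : ℂ) * x) := hx.tower_top
  have hDi : IsIntegral ℚ ((D : ℂ)⁻¹) := by
    have : ((D : ℂ)⁻¹) = algebraMap ℚ ℂ ((D : ℚ)⁻¹) := by simp
    rw [this]
    exact isIntegral_algebraMap
  have hxQ : IsIntegral ℚ x := by
    rw [hxy]
    exact hDi.mul hyQ
  have hK : ℚ⟮(D : ℂ) * x⟯ = ℚ⟮x⟯ := by
    apply le_antisymm
    · rw [adjoin_simple_le_iff]
      exact mul_mem (hDm _) (mem_adjoin_simple_self ℚ x)
    · rw [adjoin_simple_le_iff]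
      have h1 := mul_mem (inv_mem (hDm ℚ⟮(D : ℂ) * x⟯)) (mem_adjoin_simple_self ℚ ((D : ℂ) * x))
      rwa [← hxy] at h1
  rw [← adjoin.finrank hxQ, ← hK, adjoin.finrank hyQ, minpoly.isIntegrallyClosed_eq_field_fractions' ℚ hx,
    Polynomial.natDegree_map_eq_of_injective (algebraMap ℤ ℚ).injective_int]

/-- For every `n`, every maximal system `S ⊆ E_n` and every `D ≥ 1` there is a finite set `F` of complex numbers such that
for every solution `x` of `S` for which all `D * x i` are algebraic integers every coordinate `x i` is in `F` or has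
degree at least 6 over `ℚ`. -/
theorem result (n : ℕ) (S : Set (Eqn n)) (hS : MaxSys n S) (D : ℕ) (hD : 0 < D) :
    ∃ F : Set ℂ, F.Finite ∧ ∀ x ∈ Sol S, (∀ i, IsIntegral ℤ ((D : ℂ) * x i)) →
      ∀ i, x i ∈ F ∨ 6 ≤ (minpoly ℚ (x i)).natDegree := by
  choose F hF h using fun i => coordinate hS D hD i
  refine ⟨⋃ i, F i, Set.finite_iUnion hF, fun x hx hint i => ?_⟩
  by_cases hd : (minpoly ℤ ((D : ℂ) * x i)).natDegree ≤ 5
  · exact Or.inl (Set.mem_iUnion.2 ⟨i, h i x hx hint hd⟩)
  · right
    rw [← degree_mul D hD (hint i)]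
    omega

end Pool.Agent.Results.MP_dafae9_al.IntegralSolutions
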