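import Pool.Agent.Lib.H58D.Sys
import Pool.Agent.Lib.H89.Ci.Five

/-!
# The solution set of a maximal system contains no non-constant entire curve (MP_dafae9_al)

Q1 is equivalent to the finiteness of the solution set `V` of every maximal system `S ⊆ E_n` (hand-in
`FiniteSystems`). Here: every holomorphic map from `ℂ` or from `ℂ ∖ {0}` to `V` is constant, and so is every
rational map into `V` which is defined outside at most four points of `ℂ`.

Proof: if `S` contains no equation `x_i = 1` then `0` satisfies `S` and all sums and products, so `V = {0}`.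
Otherwise let `x_u = 1` be in `S`. The equations `x_i + x_i = x_i`, `x_i = 1`, `x_u + x_u = x_i`, `x_i + x_i = x_u`,
`x_i x_i = x_u` say that `x_i` is `0`, `1`, `2`, `1/2`, `±1`; by maximality each of them holds on all of `V` or
nowhere on `V`. So every coordinate of a curve in `V` is constant or omits these values; an entire function which
omits four values is constant (five totally ramified values, with `∞`).
-/

set_option autoImplicit false

namespace Pool.Agent.Results.MP_dafae9_al.NoEntireCurves

open H58D Pool.Agent.H89.Ci Filter Topology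

/-- An entire function without the values `0, 1, 2, 1/2` is constant. -/
theorem const_of_omit (g : ℂ → ℂ) (hg : Differentiable ℂ g)
    (h : ∀ z, g z ≠ 0 ∧ g z ≠ 1 ∧ g z ≠ 2 ∧ g z ≠ 1 / 2) : ∃ c, ∀ z, g z = c := by
  have han : ∀ z, AnalyticAt ℂ (fun w => g w + 3) z := fun z =>
    (hg.add_const 3).analyticAt z
  have hm : Meromorphic (fun w => g w + 3) := fun z => (han z).meromorphicAt
  set w : Mer := mk (fun w => g w + 3) hm with hw
  have hord : ∀ (v : ℂ), (∀ z, g z + 3 ≠ v) → ∀ z, ord z (w - algebraMap ℂ Mer v) = 0 := by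
    intro v hv z
    have h1 : w - algebraMap ℂ Mer v = w + algebraMap ℂ Mer (-v) := by
      rw [map_neg, sub_eq_add_neg]
    have h2 : rep (w - algebraMap ℂ Mer v) =ᶠ[𝓝[≠] z] fun u => (g u + 3) - v := by
      rw [h1]
      filter_upwards [rep_add w (algebraMap ℂ Mer (-v)) z, rep_mk hm z, rep_const (-v) z]
        with u e1 e2 e3
      rw [e1, e3, hw, e2]
      ring
    rw [ord_congr h2]
    have h3 : AnalyticAt ℂ (fun u => (g u + 3) - v) z := (han z).sub analyticAt_const
    rw [h3.meromorphicOrderAt_eq]
    have h4 : analyticOrderAt (fun u => (g u + 3) - v) z = 0 := by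
      rw [h3.analyticOrderAt_eq_zero]
      exact sub_ne_zero.2 (hv z)
    rw [h4]; rfl
  have hdd : dd w = 0 := by
    refine dd_eq_zero_of_five (a := ![1 / 3, 1 / 4, 1 / 5, 2 / 7, 0]) ?_ ?_ ?_
    · intro i j hij
      fin_cases i <;> fin_cases j <;> first | rfl | (exfalso; norm_num at hij)
    · intro i hi z
      have key : ∀ v : ℂ, (∀ z, g z + 3 ≠ v) → ord z (w - algebraMap ℂ Mer v) ≠ 1 := by
        intro v hv
        rw [hord v hv z]
        exact zero_ne_one
      fin_cases i
      · refine key _ fun z e => (h z).1 ?_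
        have : g z + 3 = 3 := by simpa using e
        linear_combination this
      · refine key _ fun z e => (h z).2.1 ?_
        have : g z + 3 = 4 := by simpa using e
        linear_combination this
      · refine key _ fun z e => (h z).2.2.1 ?_
        have : g z + 3 = 5 := by simpa using e
        linear_combination this
      · refine key _ fun z e => (h z).2.2.2 ?_
        have : g z + 3 = 7 / 2 := by simpa using e
        linear_combination this
      · exact absurd rfl hi
    · intro i _ z
      have h2 : rep w =ᶠ[𝓝[≠] z] fun u => g u + 3 := rep_mk hm z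
      rw [ord_congr h2]
      intro e
      have h3 := (han z).meromorphicOrderAt_nonneg
      rw [e] at h3
      have h4 : ((0 : ℤ) : WithTop ℤ) ≤ ((-1 : ℤ) : WithTop ℤ) := h3
      have h5 := WithTop.coe_le_coe.1 h4
      omega
  obtain ⟨c, hc⟩ := exists_const_of_dd hdd
  -- `g + 3 = c` near every point
  have h1 : (fun u => g u + 3) =ᶠ[𝓝[≠] (0 : ℂ)] fun _ => c := by
    filter_upwards [rep_mk hm 0, rep_const c 0] with u e1 e2
    rw [← e1, ← hw, hc, e2]
  have h2 : (fun u => g u + 3) = fun _ => c := by
    refine AnalyticOnNhd.eq_of_frequently_eq (z₀ := 0) (fun z _ => han z)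
      (fun z _ => analyticAt_const) h1.frequently
  refine ⟨c - 3, fun z => ?_⟩
  have := congrFun h2 z
  linear_combination this

section rational

open Polynomial

/-- the polynomial identity from the values outside the zeros of `q` -/
theorem eq_C_mul {P q : ℂ[X]} (hq : q ≠ 0) (c : ℂ)
    (h : ∀ z, q.eval z ≠ 0 → P.eval z / q.eval z = c) : P = C c * q := by
  have h1 : (P - C c * q) * q = 0 := by
    refine Polynomial.funext fun z => ?_
    rw [eval_mul, eval_sub, eval_mul, eval_C, eval_zero]
    by_cases hz : q.eval z = 0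
    · rw [hz, mul_zero]
    · have := h z hz
      rw [div_eq_iff hz] at this
      rw [this, sub_self, zero_mul]
  rcases mul_eq_zero.1 h1 with h2 | h2
  · exact sub_eq_zero.1 h2
  · exact absurd h2 hq

/-- A rational function without the values `0, 1, -1, 2, 1/2` outside at most four points of `ℂ` is
constant. -/
theorem rational_omit {P q : ℂ[X]} (hq : q ≠ 0) (hr : q.roots.toFinset.card ≤ 4)
    (h : ∀ z, q.eval z ≠ 0 → ∀ v ∈ ({0, 1, -1, 2, 1 / 2} : Finset ℂ), P.eval z ≠ v * q.eval z) :
    ∃ c, P = C c * q := by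
  classical
  by_contra hcon
  push Not at hcon
  obtain ⟨g, P', q', hg, hcop, hP, hq'⟩ : ∃ g P' q' : ℂ[X], g ≠ 0 ∧ IsCoprime P' q' ∧
      P = g * P' ∧ q = g * q' := by
    have hg : EuclideanDomain.gcd P q ≠ 0 := fun e => hq (EuclideanDomain.gcd_eq_zero_iff.1 e).2
    obtain ⟨P', hP'⟩ := EuclideanDomain.gcd_dvd_left P q
    obtain ⟨q', hq'⟩ := EuclideanDomain.gcd_dvd_right P q
    refine ⟨_, P', q', hg, ?_, hP', hq'⟩
    refine ⟨EuclideanDomain.gcdA P q, EuclideanDomain.gcdB P q, ?_⟩
    have hb := EuclideanDomain.gcd_eq_gcd_ab P q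
    have : EuclideanDomain.gcd P q * (EuclideanDomain.gcdA P q * P' +
        EuclideanDomain.gcdB P q * q') = EuclideanDomain.gcd P q * 1 := by
      calc EuclideanDomain.gcd P q * (EuclideanDomain.gcdA P q * P' +
            EuclideanDomain.gcdB P q * q')
          = (EuclideanDomain.gcd P q * P') * EuclideanDomain.gcdA P q
            + (EuclideanDomain.gcd P q * q') * EuclideanDomain.gcdB P q := by ring
        _ = P * EuclideanDomain.gcdA P q + q * EuclideanDomain.gcdB P q := by rw [← hP', ← hq']
        _ = EuclideanDomain.gcd P q * 1 := by rw [← hb, mul_one]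
    exact mul_left_cancel₀ hg this
  have hq'0 : q' ≠ 0 := fun e => hq (by rw [hq', e, mul_zero])
  have hcon' : ∀ c, P' ≠ C c * q' := fun c e => hcon c (by rw [hP, hq', e]; ring)
  -- roots of the `R v`
  have hroot : ∀ v ∈ ({0, 1, -1, 2, 1 / 2} : Finset ℂ), ∀ α, (P' - C v * q').eval α = 0 →
      q'.eval α ≠ 0 ∧ q.eval α = 0 ∧ P'.eval α = v * q'.eval α := by
    intro v hv α hα
    have e1 : P'.eval α = v * q'.eval α := by
      rw [eval_sub, eval_mul, eval_C] at hα
      exact sub_eq_zero.1 hα
    have e2 : q'.eval α ≠ 0 := by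
      intro e
      obtain ⟨a, b, hab⟩ := hcop
      have := congrArg (eval α) hab
      rw [eval_add, eval_mul, eval_mul, e1, e, eval_one] at this
      simp at this
    refine ⟨e2, ?_, e1⟩
    by_contra hne
    refine h α hne v hv ?_
    rw [hP, hq', eval_mul, eval_mul, e1]
    ring
  have hV : ({0, 1, -1, 2, 1 / 2} : Finset ℂ).card = 5 := by
    rw [Finset.card_insert_of_notMem, Finset.card_insert_of_notMem, Finset.card_insert_of_notMem,
      Finset.card_insert_of_notMem, Finset.card_singleton] <;> norm_num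
  set V : Finset ℂ := {0, 1, -1, 2, 1 / 2} with hVdef
  set A : Finset ℂ := V.filter (fun v => ∃ α, (P' - C v * q').eval α = 0) with hA
  have hAex : ∀ v : ℂ, ∃ α : ℂ, v ∈ A → (P' - C v * q').eval α = 0 := by
    intro v
    by_cases hv : v ∈ A
    · obtain ⟨α, hα⟩ := (Finset.mem_filter.1 hv).2
      exact ⟨α, fun _ => hα⟩
    · exact ⟨0, fun h => absurd h hv⟩
  choose α hα using hAex
  have hAV : A ⊆ V := Finset.filter_subset _ _
  have hinj : Set.InjOn α A := by
    intro v hv w hw hvw
    obtain ⟨e1, _, e3⟩ := hroot v (hAV hv) _ (hα v hv)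
    obtain ⟨_, _, e6⟩ := hroot w (hAV hw) _ (hα w hw)
    rw [← hvw, e3] at e6
    exact mul_right_cancel₀ e1 e6
  have hsub : A.image α ⊆ q.roots.toFinset := by
    intro z hz
    obtain ⟨v, hv, rfl⟩ := Finset.mem_image.1 hz
    rw [Multiset.mem_toFinset, mem_roots hq]
    exact (hroot v (hAV hv) _ (hα v hv)).2.1
  have hcardA : (A.image α).card = A.card := Finset.card_image_of_injOn hinj
  have hA4 : A.card ≤ 4 := by
    rw [← hcardA]; exact (Finset.card_le_card hsub).trans hr
  -- a value which is not taken
  obtain ⟨v0, hv0, hv0A⟩ : ∃ v0 ∈ V, v0 ∉ A := by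
    by_contra hno
    push Not at hno
    have := Finset.card_le_card (fun v hv => hno v hv : V ⊆ A)
    omega
  have hconst : ∀ v ∈ V, v ∉ A → ∃ r, P' - C v * q' = C r := by
    intro v hv hvA
    have hdeg : (P' - C v * q').degree = 0 := by
      by_contra hd
      obtain ⟨β, hβ⟩ := IsAlgClosed.exists_root _ hd
      exact hvA (Finset.mem_filter.2 ⟨hv, β, hβ⟩)
    exact ⟨_, eq_C_of_degree_eq_zero hdeg⟩
  obtain ⟨r0, hr0⟩ := hconst v0 hv0 hv0A
  have hnc : ∀ b, q' ≠ C b := by
    intro b hb
    have hb0 : b ≠ 0 := fun e => hq'0 (by rw [hb, e, C_0])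
    refine hcon' ((r0 + v0 * b) / b) ?_
    have : P' = C r0 + C v0 * q' := by rw [← hr0]; ring
    rw [this, hb, ← C_mul, ← C_add, ← C_mul, div_mul_cancel₀ _ hb0]
  have hA' : V.erase v0 ⊆ A := by
    intro v hv
    by_contra hvA
    obtain ⟨r, hr'⟩ := hconst v (Finset.mem_of_mem_erase hv) hvA
    have hne : v0 - v ≠ 0 := sub_ne_zero.2 (Finset.ne_of_mem_erase hv).symm
    refine hnc ((r - r0) / (v0 - v)) ?_
    have e1 : C (v0 - v) * q' = C (r - r0) := by
      rw [C_sub, C_sub, ← hr', ← hr0]; ring
    have e2 : C (v0 - v)⁻¹ * (C (v0 - v) * q') = C (v0 - v)⁻¹ * C (r - r0) := by rw [e1]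
    rw [← mul_assoc, ← C_mul, inv_mul_cancel₀ hne, C_1, one_mul, ← C_mul] at e2
    rw [e2, div_eq_inv_mul]
  have hA4' : 4 ≤ A.card := by
    have := Finset.card_le_card hA'
    rw [Finset.card_erase_of_mem hv0, hV] at this
    omega
  obtain ⟨β, hβ⟩ : ∃ β, q'.eval β = 0 := by
    have hdeg : q'.degree ≠ 0 := by
      intro e
      exact hnc _ (eq_C_of_degree_eq_zero e)
    exact IsAlgClosed.exists_root _ hdeg
  have hβA : β ∉ A.image α := by
    intro hz
    obtain ⟨v, hv, hvz⟩ := Finset.mem_image.1 hz
    refine (hroot v (hAV hv) _ (hα v hv)).1 ?_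
    rw [hvz]; exact hβ
  have hfin : insert β (A.image α) ⊆ q.roots.toFinset := by
    refine Finset.insert_subset ?_ hsub
    rw [Multiset.mem_toFinset, mem_roots hq]
    show q.eval β = 0
    rw [hq', eval_mul, hβ, mul_zero]
  have := Finset.card_le_card hfin
  rw [Finset.card_insert_of_notMem hβA, hcardA] at this
  omega

end rational

/-- The maximal systems: `S ⊆ E_n` has a solution and no `S'` with `S ⊂ S' ⊆ E_n` has one. -/
def MaxSys (n : ℕ) (S : Set (Eqn n)) : Prop :=
  S ⊆ EE n ∧ (Sol S).Nonempty ∧ ∀ S' : Set (Eqn n), S ⊂ S' → S' ⊆ EE n → ¬ (Sol S').Nonempty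

theorem holds_mem {n : ℕ} {S : Set (Eqn n)} (hS : MaxSys n S) {x : Fin n → ℂ} (hx : x ∈ Sol S)
    {e : Eqn n} (he : e ∈ EE n) (hxe : Holds x e) : e ∈ S := by
  by_contra hne
  refine hS.2.2 (insert e S) (Set.ssubset_insert hne) (Set.insert_subset he hS.1) ⟨x, ?_⟩
  intro e' he'
  rcases Set.mem_insert_iff.1 he' with rfl | h
  · exact hxe
  · exact hx e' h

/-- An entire curve of solutions is constant. -/
theorem entire {n : ℕ} {S : Set (Eqn n)} (hS : MaxSys n S) (f : ℂ → Fin n → ℂ)
    (hf : ∀ i, Differentiable ℂ fun z => f z i) (hfS : ∀ z, f z ∈ Sol S) :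
    ∃ c, ∀ z, f z = c := by
  have hcoord : ∀ i, ∃ c, ∀ z, f z i = c := by
    intro i
    by_cases h0 : Eqn.add i i i ∈ S
    · refine ⟨0, fun z => ?_⟩
      have h : f z i + f z i = f z i := hfS z _ h0
      linear_combination h
    have hone : ∃ i0, Eqn.one i0 ∈ S := by
      by_contra hno
      push Not at hno
      apply h0
      have hz : (0 : Fin n → ℂ) ∈ Sol S := by
        intro e he
        match e, he with
        | Eqn.one k, he => exact absurd he (hno k)
        | Eqn.add a b c, _ => simp [Holds]
        | Eqn.mul a b c, _ => simp [Holds]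
      exact holds_mem hS hz (e := Eqn.add i i i) (le_refl i) (by simp [Holds])
    obtain ⟨i0, hi0⟩ := hone
    have hv : ∀ z, f z i0 = 1 := fun z => hfS z _ hi0
    by_cases h1 : Eqn.one i ∈ S
    · exact ⟨1, fun z => hfS z _ h1⟩
    by_cases h2 : Eqn.add i0 i0 i ∈ S
    · refine ⟨2, fun z => ?_⟩
      have h : f z i0 + f z i0 = f z i := hfS z _ h2
      rw [hv] at h
      rw [← h]; norm_num
    by_cases h3 : Eqn.add i i i0 ∈ S
    · refine ⟨1 / 2, fun z => ?_⟩
      have h : f z i + f z i = f z i0 := hfS z _ h3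
      rw [hv] at h
      linear_combination h / 2
    refine const_of_omit _ (hf i) fun z => ⟨fun e => h0 ?_, fun e => h1 ?_, fun e => h2 ?_,
      fun e => h3 ?_⟩
    · exact holds_mem hS (hfS z) (le_refl i) (by simp [Holds, e])
    · exact holds_mem hS (hfS z) trivial e
    · refine holds_mem hS (hfS z) (le_refl i0) ?_
      show f z i0 + f z i0 = f z i
      rw [hv, e]; norm_num
    · refine holds_mem hS (hfS z) (le_refl i) ?_
      show f z i + f z i = f z i0
      rw [hv, e]; norm_num
  choose c hc using hcoord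
  exact ⟨c, fun z => funext fun i => hc i z⟩

/-- A rational curve of solutions with at most four finite poles is constant. -/
theorem rational {n : ℕ} {S : Set (Eqn n)} (hS : MaxSys n S) (p : Fin n → Polynomial ℂ)
    (q : Polynomial ℂ) (hq : q ≠ 0) (hr : q.roots.toFinset.card ≤ 4)
    (h : ∀ z, q.eval z ≠ 0 → (fun i => (p i).eval z / q.eval z) ∈ Sol S) :
    ∃ c : Fin n → ℂ, ∀ z, q.eval z ≠ 0 → (fun i => (p i).eval z / q.eval z) = c := by
  have hcoord : ∀ i, ∃ c, p i = Polynomial.C c * q := by
    intro i
    by_cases h0 : Eqn.add i i i ∈ S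
    · refine ⟨0, eq_C_mul hq 0 fun z hz => ?_⟩
      have e : (p i).eval z / q.eval z + (p i).eval z / q.eval z = (p i).eval z / q.eval z :=
        h z hz _ h0
      linear_combination e
    have hone : ∃ i0, Eqn.one i0 ∈ S := by
      by_contra hno
      push Not at hno
      apply h0
      have hz : (0 : Fin n → ℂ) ∈ Sol S := by
        intro e he
        match e, he with
        | Eqn.one k, he => exact absurd he (hno k)
        | Eqn.add a b c, _ => simp [Holds]
        | Eqn.mul a b c, _ => simp [Holds]
      exact holds_mem hS hz (e := Eqn.add i i i) (le_refl i) (by simp [Holds])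
    obtain ⟨i0, hi0⟩ := hone
    have hv : ∀ z, q.eval z ≠ 0 → (p i0).eval z / q.eval z = 1 := fun z hz => h z hz _ hi0
    by_cases h1 : Eqn.one i ∈ S
    · exact ⟨1, eq_C_mul hq 1 fun z hz => h z hz _ h1⟩
    by_cases h2 : Eqn.add i0 i0 i ∈ S
    · refine ⟨2, eq_C_mul hq 2 fun z hz => ?_⟩
      have e : (p i0).eval z / q.eval z + (p i0).eval z / q.eval z = (p i).eval z / q.eval z :=
        h z hz _ h2
      rw [hv z hz] at e
      rw [← e]; norm_num
    by_cases h3 : Eqn.add i i i0 ∈ S
    · refine ⟨1 / 2, eq_C_mul hq _ fun z hz => ?_⟩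
      have e : (p i).eval z / q.eval z + (p i).eval z / q.eval z = (p i0).eval z / q.eval z :=
        h z hz _ h3
      rw [hv z hz] at e
      linear_combination e / 2
    by_cases h4 : Eqn.mul i i i0 ∈ S
    · have e1 : (p i - q) * (p i + q) * q = 0 := by
        refine Polynomial.funext fun z => ?_
        rw [Polynomial.eval_mul, Polynomial.eval_mul, Polynomial.eval_sub, Polynomial.eval_add,
          Polynomial.eval_zero]
        by_cases hz : q.eval z = 0
        · rw [hz, mul_zero]
        · have e : (p i).eval z / q.eval z * ((p i).eval z / q.eval z)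
              = (p i0).eval z / q.eval z := h z hz _ h4
          rw [hv z hz] at e
          have e2 : (p i).eval z * (p i).eval z = q.eval z * q.eval z := by
            field_simp at e
            linear_combination e
          linear_combination q.eval z * e2
      rcases mul_eq_zero.1 e1 with e2 | e2
      · rcases mul_eq_zero.1 e2 with e3 | e3
        · exact ⟨1, by rw [Polynomial.C_1, one_mul]; exact sub_eq_zero.1 e3⟩
        · exact ⟨-1, by rw [Polynomial.C_neg, Polynomial.C_1]; linear_combination e3⟩
      · exact absurd e2 hq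
    refine rational_omit hq hr fun z hz v hv' e => ?_
    have e' : (p i).eval z / q.eval z = v := by rw [div_eq_iff hz]; exact e
    simp only [Finset.mem_insert, Finset.mem_singleton] at hv'
    rcases hv' with rfl | rfl | rfl | rfl | rfl
    · refine h0 (holds_mem hS (h z hz) (le_refl i) ?_)
      show (p i).eval z / q.eval z + (p i).eval z / q.eval z = (p i).eval z / q.eval z
      rw [e']; ring
    · exact h1 (holds_mem hS (h z hz) trivial e')
    · refine h4 ?_
      refine holds_mem hS (h z hz) (le_refl i) ?_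
      show (p i).eval z / q.eval z * ((p i).eval z / q.eval z) = (p i0).eval z / q.eval z
      rw [e', hv z hz]; ring
    · refine h2 (holds_mem hS (h z hz) (le_refl i0) ?_)
      show (p i0).eval z / q.eval z + (p i0).eval z / q.eval z = (p i).eval z / q.eval z
      rw [e', hv z hz]; norm_num
    · refine h3 (holds_mem hS (h z hz) (le_refl i) ?_)
      show (p i).eval z / q.eval z + (p i).eval z / q.eval z = (p i0).eval z / q.eval z
      rw [e', hv z hz]; norm_num
  choose c hc using hcoord
  refine ⟨c, fun z hz => funext fun i => ?_⟩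
  show (p i).eval z / q.eval z = c i
  rw [hc i, Polynomial.eval_mul, Polynomial.eval_C, mul_div_cancel_right₀ _ hz]

/-- For every `n` and every maximal system `S ⊆ E_n`: every entire curve in the solution set of `S`
is constant, so is every holomorphic map from `ℂ ∖ {0}` to the solution set, and so is every rational
map `ℂ ∖ {q = 0} → ℂ ^ n` into the solution set if `q` has at most four zeros. -/
theorem result (n : ℕ) (S : Set (Eqn n)) (hS : MaxSys n S) :
    (∀ f : ℂ → Fin n → ℂ, (∀ i, Differentiable ℂ fun z => f z i) → (∀ z, f z ∈ Sol S) →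
      ∃ c, ∀ z, f z = c) ∧
    (∀ f : ℂ → Fin n → ℂ, (∀ i, DifferentiableOn ℂ (fun z => f z i) {0}ᶜ) →
      (∀ z, z ≠ 0 → f z ∈ Sol S) → ∃ c, ∀ z, z ≠ 0 → f z = c) ∧
    (∀ (p : Fin n → Polynomial ℂ) (q : Polynomial ℂ), q ≠ 0 → q.roots.toFinset.card ≤ 4 →
      (∀ z, q.eval z ≠ 0 → (fun i => (p i).eval z / q.eval z) ∈ Sol S) →
      ∃ c : Fin n → ℂ, ∀ z, q.eval z ≠ 0 → (fun i => (p i).eval z / q.eval z) = c) := by
  refine ⟨fun f hf hfS => entire hS f hf hfS, fun f hf hfS => ?_,
    fun p q hq hr h => rational hS p q hq hr h⟩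
  obtain ⟨c, hc⟩ := entire hS (fun z => f (Complex.exp z)) (fun i z => by
    have h1 : DifferentiableAt ℂ (fun z => f z i) (Complex.exp z) :=
      (hf i).differentiableAt (isOpen_compl_singleton.mem_nhds (Complex.exp_ne_zero z))
    exact h1.comp z Complex.differentiable_exp.differentiableAt)
    (fun z => hfS _ (Complex.exp_ne_zero z))
  refine ⟨c, fun z hz => ?_⟩
  have := hc (Complex.log z)
  rwa [Complex.exp_log hz] at this

end Pool.Agent.Results.MP_dafae9_al.NoEntireCurves
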